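import Pool.Agent.H41.AL.Defs2

set_option autoImplicit false

/-!
# Repairing a matching by augmenting paths of length at most five
-/

namespace Pool.Agent.H484.AG

open Equiv Pool.Agent.H41.AL

/-- the three cycle `a ↦ b ↦ c ↦ a` -/
theorem cyc_a {n : ℕ} {a b c : Fin n} (hab : a ≠ b) (hac : a ≠ c) :
    (swap a b * swap b c) a = b := by
  rw [Perm.mul_apply, swap_apply_of_ne_of_ne hab hac, swap_apply_left]

theorem cyc_b {n : ℕ} {a b c : Fin n} (hac : a ≠ c) (hbc : b ≠ c) :
    (swap a b * swap b c) b = c := by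
  rw [Perm.mul_apply, swap_apply_left, swap_apply_of_ne_of_ne hac.symm hbc.symm]

theorem cyc_c {n : ℕ} {a b c : Fin n} :
    (swap a b * swap b c) c = a := by
  rw [Perm.mul_apply, swap_apply_right, swap_apply_right]

theorem cyc_x {n : ℕ} {a b c x : Fin n} (ha : x ≠ a) (hb : x ≠ b) (hc : x ≠ c) :
    (swap a b * swap b c) x = x := by
  rw [Perm.mul_apply, swap_apply_of_ne_of_ne hb hc, swap_apply_of_ne_of_ne ha hb]

open Classical in
/-- an augmenting path -/
theorem path {n m β : ℕ} (B : Fin n → Fin n → Prop)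
    (hx : ∀ S T : Finset (Fin n), β ≤ S.card → β ≤ T.card → ∃ j ∈ S, ∃ c ∈ T, B j c)
    (hr : ∀ j, 2 * β + m ≤ {c | B j c}.ncard) (hc : ∀ c, 2 * β + m ≤ {j | B j c}.ncard)
    (P : Perm (Fin n)) (R : Finset (Fin n)) (hR : R.card ≤ m) (j0 : Fin n) :
    ∃ r r' : Fin n, r ∉ R ∧ r' ∉ R ∧ r ≠ r' ∧ B j0 (P r) ∧ B r (P r') ∧ B r' (P j0) := by
  have h1 : 2 * β ≤ (Finset.univ.filter fun r => r ∉ R ∧ B j0 (P r)).card := by
    have e1 : {c | B j0 c}.ncard = (Finset.univ.filter fun r => B j0 (P r)).card := by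
      have e2 : {c | B j0 c} =
          (((Finset.univ.filter fun r => B j0 (P r)).map P.toEmbedding : Finset (Fin n)) :
            Set (Fin n)) := by
        ext c
        simp only [Set.mem_setOf_eq, Finset.coe_map, Finset.coe_filter, Finset.mem_univ, true_and,
          Set.mem_image, Equiv.coe_toEmbedding]
        constructor
        · intro h
          exact ⟨P.symm c, by rw [Equiv.apply_symm_apply]; exact h, Equiv.apply_symm_apply P c⟩
        · rintro ⟨x, hx, rfl⟩
          exact hx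
      rw [e2, Set.ncard_coe_finset, Finset.card_map]
    have e3 : (Finset.univ.filter fun r => B j0 (P r)) ⊆
        (Finset.univ.filter fun r => r ∉ R ∧ B j0 (P r)) ∪ R := by
      intro r h
      rw [Finset.mem_filter] at h
      rw [Finset.mem_union, Finset.mem_filter]
      by_cases hR' : r ∈ R
      · exact Or.inr hR'
      · exact Or.inl ⟨Finset.mem_univ _, hR', h.2⟩
    have e4 := (Finset.card_le_card e3).trans (Finset.card_union_le _ _)
    have e5 := hr j0
    omega
  have h2 : 2 * β ≤ (Finset.univ.filter fun r => r ∉ R ∧ B r (P j0)).card := by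
    have e1 : {j | B j (P j0)}.ncard = (Finset.univ.filter fun r => B r (P j0)).card := by
      have e2 : {j | B j (P j0)} =
          (((Finset.univ.filter fun r => B r (P j0)) : Finset (Fin n)) : Set (Fin n)) := by
        ext c
        simp
      rw [e2, Set.ncard_coe_finset]
    have e3 : (Finset.univ.filter fun r => B r (P j0)) ⊆
        (Finset.univ.filter fun r => r ∉ R ∧ B r (P j0)) ∪ R := by
      intro r h
      rw [Finset.mem_filter] at h
      rw [Finset.mem_union, Finset.mem_filter]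
      by_cases hR' : r ∈ R
      · exact Or.inr hR'
      · exact Or.inl ⟨Finset.mem_univ _, hR', h.2⟩
    have e4 := (Finset.card_le_card e3).trans (Finset.card_union_le _ _)
    have e5 := hc (P j0)
    omega
  obtain ⟨X, hX, hXc⟩ := Finset.exists_subset_card_eq (le_trans (by omega : β ≤ 2 * β) h1)
  have h3 : β ≤ ((Finset.univ.filter fun r => r ∉ R ∧ B r (P j0)) \ X).card := by
    have := Finset.le_card_sdiff X (Finset.univ.filter fun r => r ∉ R ∧ B r (P j0))
    omega
  obtain ⟨Y, hY, hYc⟩ := Finset.exists_subset_card_eq h3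
  obtain ⟨r, hrX, c, hcT, hB⟩ := hx X (Y.map P.toEmbedding) (by omega)
    (by rw [Finset.card_map]; omega)
  rw [Finset.mem_map] at hcT
  obtain ⟨r', hr'Y, hr'c⟩ := hcT
  rw [Equiv.coe_toEmbedding] at hr'c
  have a1 := hX hrX
  have a2 := hY hr'Y
  rw [Finset.mem_filter] at a1
  rw [Finset.mem_sdiff, Finset.mem_filter] at a2
  refine ⟨r, r', a1.2.1, a2.1.2.1, ?_, a1.2.2, ?_, a2.1.2.2⟩
  · intro h
    exact a2.2 (h ▸ hrX)
  · rw [hr'c]
    exact hB

theorem fix_aux {n m β : ℕ} (B : Fin n → Fin n → Prop)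
    (hx : ∀ S T : Finset (Fin n), β ≤ S.card → β ≤ T.card → ∃ j ∈ S, ∃ c ∈ T, B j c)
    (hr : ∀ j, 2 * β + m ≤ {c | B j c}.ncard) (hc : ∀ c, 2 * β + m ≤ {j | B j c}.ncard)
    (k : ℕ) : ∀ (P : Perm (Fin n)) (R : Finset (Fin n)), R.card = k → k ≤ m →
    (∀ j, j ∉ R → B j (P j)) →
    ∃ Q : Perm (Fin n), (∀ j, B j (Q j)) ∧ {j | Q j ≠ P j}.ncard ≤ 3 * k := by
  classical
  induction k with
  | zero =>
    intro P R hRk _ hP
    refine ⟨P, fun j => hP j ?_, ?_⟩
    · rw [Finset.card_eq_zero] at hRk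
      rw [hRk]
      exact Finset.notMem_empty j
    · simp
  | succ k ih =>
    intro P R hRk hkm hP
    obtain ⟨j0, hj0⟩ : R.Nonempty := by
      rw [← Finset.card_pos]
      omega
    obtain ⟨r, r', hrR, hr'R, hne, b1, b2, b3⟩ := path B hx hr hc P R (by omega) j0
    have n1 : j0 ≠ r := fun h => hrR (h ▸ hj0)
    have n2 : j0 ≠ r' := fun h => hr'R (h ▸ hj0)
    obtain ⟨Q, hQ, hQc⟩ := ih (P * (swap j0 r * swap r r')) (R.erase j0)
      (by rw [Finset.card_erase_of_mem hj0]; omega) (by omega) (by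
        intro j hj
        rw [Perm.mul_apply]
        by_cases e1 : j = j0
        · rw [e1, cyc_a n1 n2]
          exact b1
        by_cases e2 : j = r
        · rw [e2, cyc_b n2 hne]
          exact b2
        by_cases e3 : j = r'
        · rw [e3, cyc_c]
          exact b3
        rw [cyc_x e1 e2 e3]
        exact hP j (fun h => hj (Finset.mem_erase.mpr ⟨e1, h⟩)))
    refine ⟨Q, hQ, ?_⟩
    have hsub : {j | Q j ≠ P j} ⊆
        {j | Q j ≠ (P * (swap j0 r * swap r r')) j} ∪ (({j0, r, r'} : Finset (Fin n)) :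
          Set (Fin n)) := by
      intro j hj
      rw [Set.mem_setOf_eq] at hj
      rw [Set.mem_union, Set.mem_setOf_eq, Finset.mem_coe]
      by_cases e1 : j = j0
      · exact Or.inr (by rw [e1]; simp)
      by_cases e2 : j = r
      · exact Or.inr (by rw [e2]; simp)
      by_cases e3 : j = r'
      · exact Or.inr (by rw [e3]; simp)
      left
      rw [Perm.mul_apply, cyc_x e1 e2 e3]
      exact hj
    have h4 := (Set.ncard_le_ncard hsub (Set.toFinite _)).trans (Set.ncard_union_le _ _)
    rw [Set.ncard_coe_finset] at h4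
    have h5 : ({j0, r, r'} : Finset (Fin n)).card ≤ 3 := Finset.card_le_three
    omega

/-- G3 -/
theorem fix : S_FIX := by
  intro n m β B P R hR hP hx hr hc
  obtain ⟨Q, hQ, hQc⟩ := fix_aux B hx hr hc R.card P R rfl hR hP
  exact ⟨Q, hQ, hQc.trans (by omega)⟩

end Pool.Agent.H484.AG
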